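import Pool.Agent.L7h51.KM.Stm

/-!
Project KM, part F3.
-/

namespace Pool.Agent.L7h65.KM

open Set Cardinal Pool.Agent.L7h51.KM

universe u

theorem s_F3 : S_F3.{u} := by
  intro α M D e y hD he hy hey
  have h1 : M✶.Indep (D \ {y}) := hD.isCircuit.sdiff_singleton_indep hy
  obtain ⟨C, hC, hCe⟩ := h1.exists_isCocircuit_inter_eq_mem (e := e) ⟨he, hey⟩
  rw [Matroid.dual_isCocircuit_iff] at hC
  have heC : e ∈ C := (hCe.symm.subset rfl).1
  refine ⟨C, hC, ?_⟩
  have hyC : y ∈ C := by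
    by_contra hyC
    apply hC.inter_isCocircuit_ne_singleton hD (e := e)
    rw [← hCe]
    ext x
    simp only [mem_inter_iff, mem_sdiff, mem_singleton_iff]
    constructor
    · rintro ⟨h2, h3⟩
      exact ⟨h2, h3, fun h4 => hyC (h4 ▸ h2)⟩
    · rintro ⟨h2, h3, -⟩
      exact ⟨h2, h3⟩
  ext x
  simp only [mem_inter_iff, mem_insert_iff, mem_singleton_iff]
  constructor
  · rintro ⟨h2, h3⟩
    by_cases hxy : x = y
    · exact Or.inr hxy
    · left
      have h4 : x ∈ C ∩ (D \ {y}) := ⟨h2, h3, hxy⟩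
      rw [hCe] at h4
      exact h4
  · rintro (rfl | rfl)
    · exact ⟨heC, he⟩
    · exact ⟨hyC, hy⟩

end Pool.Agent.L7h65.KM
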