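import Pool.Agent.L7h51.KM.Stm

/-!
Project KM, part RL.
-/

namespace Pool.Agent.L7h65.KM

open Set Cardinal Pool.Agent.L7h51.KM

universe u

theorem s_RL : S_RL.{u} := by
  intro α M r c hc hrc hsm J X hJ hX hXc
  have h1 : ∀ x : X, ∃ H : Set α, H ⊆ J ∧ Cardinal.mk H < c ∧ (x : α) ∈ M.closure H := by
    intro x
    by_cases hx : (x : α) ∈ J
    · refine ⟨{(x : α)}, singleton_subset_iff.2 hx, ?_, ?_⟩
      · rw [Cardinal.mk_singleton]
        exact Cardinal.one_lt_aleph0.trans_le hc.aleph0_le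
      · exact M.mem_closure_of_mem (mem_singleton _)
          (singleton_subset_iff.2 (hJ.subset_ground hx))
    · obtain ⟨C, hCs, hC, hxC⟩ := Matroid.exists_isCircuit_of_mem_closure (hX x.2) hx
      refine ⟨C \ {(x : α)}, ?_, ?_, hC.mem_closure_sdiff_singleton_of_mem hxC⟩
      · rintro z ⟨hz, hzx⟩
        exact (hCs hz).resolve_left hzx
      · exact (Cardinal.mk_le_mk_of_subset sdiff_subset).trans_lt ((hsm C hC).trans_le hrc)
  choose H hHJ hHc hxH using h1
  refine ⟨⋃ x, H x, iUnion_subset hHJ, ?_, ?_⟩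
  · exact (Cardinal.card_iUnion_lt_iff_forall_of_isRegular hc hXc).2 hHc
  · intro x hx
    exact M.closure_subset_closure (subset_iUnion H ⟨x, hx⟩) (hxH ⟨x, hx⟩)

end Pool.Agent.L7h65.KM
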