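import Pool.Agent.L7h51.KM.Stm

/-!
Project KM, part UCL.
-/

namespace Pool.Agent.L7h65.KM

open Set Cardinal Pool.Agent.L7h51.KM

universe u

/-- the iterates -/
def Tn {α : Type u} (R : α → Set α) (T : Set α) : ℕ → Set α
  | 0 => T
  | n + 1 => Tn R T n ∪ ⋃ a : Tn R T n, R a

theorem s_UCL : S_UCL.{u} := by
  intro α c hc h0 R hR T hT
  have h1 : ∀ n, Cardinal.mk (Tn R T n) < c := by
    intro n
    induction n with
    | zero => exact hT
    | succ n ih =>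
      refine (Cardinal.mk_union_le _ _).trans_lt (Cardinal.add_lt_of_lt hc.aleph0_le ih ?_)
      exact (Cardinal.card_iUnion_lt_iff_forall_of_isRegular hc ih).2 fun a => hR a
  refine ⟨⋃ n : ULift.{u} ℕ, Tn R T n.down, fun x hx => mem_iUnion.2 ⟨⟨0⟩, hx⟩, ?_, ?_⟩
  · refine (Cardinal.card_iUnion_lt_iff_forall_of_isRegular hc ?_).2 fun n => h1 n.down
    rw [Cardinal.mk_uLift, Cardinal.mk_nat, Cardinal.lift_aleph0]
    exact h0
  · intro a ha x hx
    obtain ⟨n, hn⟩ := mem_iUnion.1 ha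
    exact mem_iUnion.2 ⟨⟨n.down + 1⟩, Or.inr (mem_iUnion.2 ⟨⟨a, hn⟩, hx⟩)⟩

end Pool.Agent.L7h65.KM
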